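import Pool.Agent.helper91.ADV.SpecX

set_option autoImplicit false

/-!
# Project ADV (MP_069684_lc), row adv:ALA: averaging over the shifts of a set of levels
-/

namespace Pool.Agent.ADV

open Finset Pool.Agent.helper38.Neg Pool.Agent.helper55.NT Pool.Agent.LNB

theorem ALA_wtu_le (u n : ℕ) (z : Fin n → Bool) : wtu u z ≤ min u n := by
  unfold wtu
  refine le_trans (Finset.card_le_card (t := univ.filter fun i : Fin n => (i : ℕ) < u) ?_) ?_
  · intro i hi
    simp only [Finset.mem_filter, Finset.mem_univ, true_and] at hi ⊢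
    exact hi.1
  · refine le_min ?_ ?_
    · have h : ((univ.filter fun i : Fin n => (i : ℕ) < u).image fun i : Fin n => (i : ℕ)) ⊆ Finset.range u := by
        intro j hj
        simp only [Finset.mem_image, Finset.mem_filter, Finset.mem_univ, true_and] at hj
        obtain ⟨i, hi, rfl⟩ := hj
        exact Finset.mem_range.2 hi
      have h2 := Finset.card_le_card h
      rw [Finset.card_image_of_injective _ Fin.val_injective, Finset.card_range] at h2
      exact h2
    · refine le_trans (Finset.card_filter_le _ _) ?_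
      simp

/-- the shifted set of levels -/
def ALA_L (N K w : ℕ) : Finset ℕ := (Finset.range K).image fun i => (w + i) % N

theorem ALA_inj (N K w : ℕ) (hKN : K ≤ N) :
    Set.InjOn (fun i => (w + i) % N) (Finset.range K : Set ℕ) := by
  intro i hi j hj h
  have hi' : i < N := lt_of_lt_of_le (Finset.mem_range.1 (Finset.mem_coe.1 hi)) hKN
  have hj' : j < N := lt_of_lt_of_le (Finset.mem_range.1 (Finset.mem_coe.1 hj)) hKN
  have h1 : w + i ≡ w + j [MOD N] := h
  exact Nat.ModEq.eq_of_lt_of_lt (Nat.ModEq.add_left_cancel' w h1) hi' hj'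

theorem ALA_card (N K w : ℕ) (hKN : K ≤ N) : (ALA_L N K w).card = K := by
  unfold ALA_L
  rw [Finset.card_image_of_injOn (ALA_inj N K w hKN), Finset.card_range]

theorem ALA_one (N i l : ℕ) (hi : i < N) (hl : l < N) :
    ∑ w ∈ Finset.range N, (if (w + i) % N = l then (1 : ℝ) else 0) = 1 := by
  rw [Finset.sum_eq_single ((l + (N - i)) % N)]
  · rw [if_pos]
    rw [Nat.mod_add_mod]
    have h : l + (N - i) + i = l + N := by omega
    rw [h, Nat.add_mod_right, Nat.mod_eq_of_lt hl]
  · intro w hw hne
    rw [if_neg]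
    intro h
    apply hne
    have hw' : w < N := Finset.mem_range.1 hw
    have h1 : l + (N - i) ≡ w [MOD N] := by
      have h2 : l ≡ w + i [MOD N] := by
        unfold Nat.ModEq
        rw [Nat.mod_eq_of_lt hl, h]
      have h3 := Nat.ModEq.add_right (N - i) h2
      have h4 : w + i + (N - i) = w + N := by omega
      rw [h4] at h3
      refine h3.trans ?_
      unfold Nat.ModEq
      rw [Nat.add_mod_right]
    have h5 : (l + (N - i)) % N = w % N := h1
    rw [h5, Nat.mod_eq_of_lt hw']
  · intro h
    exact absurd (Finset.mem_range.2 (Nat.mod_lt _ (by omega))) h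

theorem ALA_count (N K l : ℕ) (hKN : K ≤ N) (hl : l < N) :
    ∑ w ∈ Finset.range N, (if l ∈ ALA_L N K w then (1 : ℝ) else 0) = K := by
  have h1 : ∀ w ∈ Finset.range N, (if l ∈ ALA_L N K w then (1 : ℝ) else 0) =
      ∑ i ∈ Finset.range K, (if (w + i) % N = l then (1 : ℝ) else 0) := by
    intro w _
    by_cases h : l ∈ ALA_L N K w
    · rw [if_pos h]
      unfold ALA_L at h
      obtain ⟨i, hi, hil⟩ := Finset.mem_image.1 h
      rw [Finset.sum_eq_single i, if_pos hil]
      · intro j hj hji
        rw [if_neg]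
        intro hjl
        apply hji
        exact ALA_inj N K w hKN (Finset.mem_coe.2 hj) (Finset.mem_coe.2 hi) (hjl.trans hil.symm)
      · intro h'
        exact absurd hi h'
    · rw [if_neg h]
      symm
      refine Finset.sum_eq_zero fun i hi => ?_
      rw [if_neg]
      intro hil
      apply h
      unfold ALA_L
      exact Finset.mem_image.2 ⟨i, hi, hil⟩
  rw [Finset.sum_congr rfl h1, Finset.sum_comm]
  have h2 : ∀ i ∈ Finset.range K,
      ∑ w ∈ Finset.range N, (if (w + i) % N = l then (1 : ℝ) else 0) = 1 := fun i hi =>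
    ALA_one N i l (lt_of_lt_of_le (Finset.mem_range.1 hi) hKN) hl
  rw [Finset.sum_congr rfl h2]
  simp

theorem ALA_point (u : ℕ) (L : Finset ℕ) {n : ℕ} (f : Fn n) (z : Fin n → Bool) :
    ((if (altu u L f z = true ↔ f z = true) then (1 : ℝ) else 0) -
      (if (altu u L (fun x => !(f x)) z = true ↔ f z = true) then (1 : ℝ) else 0)) =
      if wtu u z ∈ L then 1 else 0 := by
  unfold altu
  by_cases h : wtu u z ∈ L
  · rw [if_pos h]
    cases hf : f z <;> simp [h, hf]
  · rw [if_neg h]
    simp [h]

theorem ALA : ALA_stmt := by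
  classical
  intro n u K hK hKN f D hD
  obtain ⟨N, hN⟩ : ∃ N : ℕ, min u n + 1 = N := ⟨_, rfl⟩
  have hN1 : (((min u n : ℕ) : ℝ) + 1) = (N : ℝ) := by
    rw [← hN]
    push_cast
    ring
  rw [hN] at hKN
  have hNpos : 1 ≤ N := le_trans hK hKN
  by_contra hcon
  push Not at hcon
  have hN' : (0 : ℝ) < (N : ℝ) := by exact_mod_cast hNpos
  have hsum : ∑ w ∈ Finset.range N, (agr D (fun x => f x = true) (altu u (ALA_L N K w) f) -
      agr D (fun x => f x = true) (altu u (ALA_L N K w) fun x => !(f x))) = K := by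
    have h1 : ∀ w : ℕ, (agr D (fun x => f x = true) (altu u (ALA_L N K w) f) -
      agr D (fun x => f x = true) (altu u (ALA_L N K w) fun x => !(f x))) =
        ∑ z, D z * (if wtu u z ∈ ALA_L N K w then 1 else 0) := by
      intro w
      unfold agr
      rw [← Finset.sum_sub_distrib]
      refine Finset.sum_congr rfl fun z _ => ?_
      rw [← ALA_point u (ALA_L N K w) f z]
      split_ifs <;> simp
    simp_rw [h1]
    rw [Finset.sum_comm]
    have h2 : ∀ z : Fin n → Bool, ∑ w ∈ Finset.range N,
        D z * (if wtu u z ∈ ALA_L N K w then (1 : ℝ) else 0) = D z * K := by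
      intro z
      rw [← Finset.mul_sum, ALA_count N K (wtu u z) hKN]
      have := ALA_wtu_le u n z
      omega
    rw [Finset.sum_congr rfl fun z _ => h2 z, ← Finset.sum_mul, hD.2, one_mul]
  have hlt : ∑ w ∈ Finset.range N, (agr D (fun x => f x = true) (altu u (ALA_L N K w) f) -
      agr D (fun x => f x = true) (altu u (ALA_L N K w) fun x => !(f x))) <
      ∑ w ∈ Finset.range N, ((K : ℝ) / (N : ℝ)) := by
    refine Finset.sum_lt_sum_of_nonempty ⟨0, Finset.mem_range.2 hNpos⟩ fun w _ => ?_
    have h := hcon (ALA_L N K w) (ALA_card N K w hKN)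
    rw [hN1] at h
    unfold adv at h
    have h1 := (abs_lt.1 h.1).2
    have h2 := (abs_lt.1 h.2).1
    have h3 : (K : ℝ) / (2 * (N : ℝ)) + (K : ℝ) / (2 * (N : ℝ)) = (K : ℝ) / (N : ℝ) := by
      field_simp
      norm_num
    linarith
  rw [hsum, Finset.sum_const, Finset.card_range, nsmul_eq_mul, mul_div_cancel₀ _ hN'.ne'] at hlt
  exact lt_irrefl _ hlt

end Pool.Agent.ADV
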