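import Pool.Agent.helper91.ADV.SpecL

/-! Project ADV (MP_069684_lc), row PRM: the choice of the parameters. -/

set_option autoImplicit false

namespace Pool.Agent.ADV

open Finset Pool.Agent.helper55.NT Pool.Agent.LNB Pool.Agent.NG Pool.Agent.PB Pool.Agent.PC

theorem PRM_g (t : ℕ) (ht : 1 ≤ t) : t ≤ 2 ^ Nat.clog 2 t ∧ 2 ^ Nat.clog 2 t ≤ 2 * t := by
  refine ⟨Nat.le_pow_clog (by norm_num) t, ?_⟩
  rcases Nat.lt_or_ge 1 t with h | h
  · have h1 : 2 ^ (Nat.clog 2 t - 1) < t := Nat.pow_pred_clog_lt_self (by norm_num) h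
    have h2 : 0 < Nat.clog 2 t := Nat.clog_pos (by norm_num) h
    have h3 : 2 ^ Nat.clog 2 t = 2 * 2 ^ (Nat.clog 2 t - 1) := by
      rw [← pow_succ', Nat.sub_add_cancel h2]
    omega
  · have h1 : t = 1 := by omega
    subst h1
    simp

/-- row PRM -/
theorem PRM : PRM_stmt := by
  intro M n t d hMn htn hd h
  have ht : 1 ≤ t := (lg_pos' n).trans htn
  obtain ⟨g, hg⟩ : ∃ g, g = 2 ^ Nat.clog 2 t := ⟨_, rfl⟩
  obtain ⟨g1, g2⟩ := PRM_g t ht
  rw [← hg] at g1 g2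
  obtain ⟨c, hc⟩ : ∃ c, c = Nat.clog 2 t := ⟨_, rfl⟩
  rw [← hc] at hg
  obtain ⟨e, he⟩ : ∃ e, e = c + 11 := ⟨_, rfl⟩
  have h2e : 2 ^ e = 2 ^ 11 * g := by
    rw [he, pow_add, hg, mul_comm]
  have he1 : 128 * e ≤ 2 ^ e := by
    have h1 : c + 1 ≤ g := by rw [hg]; exact Nat.lt_two_pow_self
    rw [h2e, he]
    omega
  obtain ⟨m', hm'⟩ : ∃ m', m' = max d 2 := ⟨_, rfl⟩
  have hm2 : 2 ≤ m' := by rw [hm']; exact le_max_right _ _
  have hm2m : m' ≤ 2 * d := by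
    rw [hm']
    exact max_le (by omega) (by omega)
  obtain ⟨T, hT⟩ : ∃ T, T = Nat.clog (2 ^ (6 * e)) m' := ⟨_, rfl⟩
  have hb : 1 < 2 ^ (6 * e) := Nat.one_lt_pow (by omega) (by norm_num)
  have hT1 : m' ≤ (2 ^ (6 * e)) ^ T := by rw [hT]; exact Nat.le_pow_clog hb _
  have hT2 : (2 ^ (6 * e)) ^ (T - 1) < m' := by
    rw [hT]
    exact Nat.pow_pred_clog_lt_self hb (by omega)
  have hT0 : 1 ≤ T := by
    rcases Nat.eq_zero_or_pos T with h0 | h0
    · rw [h0, pow_zero] at hT1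
      omega
    · exact h0
  obtain ⟨T', hT'⟩ : ∃ T', T = T' + 1 := ⟨T - 1, by omega⟩
  subst hT'
  rw [Nat.add_sub_cancel] at hT2
  have hscl : sc M ≤ 2 * t := (sc_le hMn).trans (by omega)
  have hsc := sc_pos M
  have hnB0 : 0 < nB e (T' + 2) := by unfold nB; positivity
  have hnB : nB e (T' + 2) ≤ 2 ^ 217 * d * t ^ 18 := by
    unfold nB
    have e1 : 2 ^ (6 * e * (T' + 2 + 1)) = (2 ^ (6 * e)) ^ T' * (2 ^ e) ^ 18 := by
      rw [← pow_mul, ← pow_mul, ← pow_add]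
      congr 1
      ring
    rw [e1, h2e]
    calc (2 ^ (6 * e)) ^ T' * (2 ^ 11 * g) ^ 18 ≤ (2 * d) * (2 ^ 11 * (2 * t)) ^ 18 :=
          Nat.mul_le_mul (hT2.le.trans hm2m) (Nat.pow_le_pow_left (Nat.mul_le_mul_left _ g2) 18)
      _ = 2 ^ 217 * d * t ^ 18 := by
          have e2 : 2 ^ 11 * (2 * t) = 2 ^ 12 * t := by ring
          rw [e2, mul_pow, ← pow_mul]
          have e3 : (2 : ℕ) ^ 217 = 2 * 2 ^ (12 * 18) := by
            rw [← pow_succ']
          rw [e3]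
          ring
  have hss : sc M * sc M ≤ 4 * t ^ 2 := by
    calc sc M * sc M ≤ (2 * t) * (2 * t) := Nat.mul_le_mul hscl hscl
      _ = 4 * t ^ 2 := by ring
  have hprod : nB e (T' + 2) * (sc M * sc M) ≤ 2 ^ 219 * (t ^ 20 * d) := by
    calc nB e (T' + 2) * (sc M * sc M) ≤ (2 ^ 217 * d * t ^ 18) * (4 * t ^ 2) := Nat.mul_le_mul hnB hss
      _ = 2 ^ 219 * (t ^ 20 * d) := by
          have e3 : (2 : ℕ) ^ 219 = 2 ^ 217 * 4 := by
            have e4 : (4 : ℕ) = 2 ^ 2 := by norm_num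
            rw [e4, ← pow_add]
          rw [e3]
          ring
  have hM' : 2 ^ 219 * (t ^ 20 * d) ≤ M := by
    have h1 : 2 ^ 219 * (t ^ 20 * d) ≤ 2 ^ 224 * (t ^ 20 * d) :=
      Nat.mul_le_mul_right _ (Nat.pow_le_pow_right (by norm_num) (by norm_num))
    have h2 : 2 ^ 224 * (t ^ 20 * d) = 2 ^ 224 * t ^ 20 * d := by rw [mul_assoc]
    omega
  have hss0 : 0 < sc M * sc M := Nat.mul_pos hsc hsc
  have hwd : nB e (T' + 2) ≤ wd M := by
    unfold wd
    rw [Nat.le_div_iff_mul_le hss0]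
    exact hprod.trans hM'
  obtain ⟨L, hL⟩ : ∃ L, L = wd M / nB e (T' + 2) := ⟨_, rfl⟩
  have hL1 : 1 ≤ L := by
    rw [hL]
    exact Nat.div_pos hwd hnB0
  have hL2 : L * nB e (T' + 2) ≤ wd M := by
    rw [hL]
    exact Nat.div_mul_le_self _ _
  have hL3 : wd M ≤ (L + 1) * nB e (T' + 2) := by
    have := Nat.lt_mul_div_succ (wd M) hnB0
    rw [hL, mul_comm]
    exact this.le
  have hM1 : M ≤ (wd M + 1) * (sc M * sc M) := by
    have := Nat.lt_mul_div_succ M hss0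
    unfold wd
    rw [mul_comm]
    exact this.le
  have hM2 : M ≤ 2 ^ 224 * t ^ 20 * d * L := by
    have a1 : wd M + 1 ≤ 2 * wd M := by omega
    have a2 : (L + 1) * nB e (T' + 2) ≤ (2 * L) * nB e (T' + 2) := Nat.mul_le_mul_right _ (by omega)
    have a3 : wd M + 1 ≤ 4 * (L * nB e (T' + 2)) := by
      have : (2 * L) * nB e (T' + 2) = 2 * (L * nB e (T' + 2)) := by ring
      omega
    calc M ≤ (wd M + 1) * (sc M * sc M) := hM1
      _ ≤ (4 * (L * nB e (T' + 2))) * (sc M * sc M) := Nat.mul_le_mul_right _ a3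
      _ = 4 * L * (nB e (T' + 2) * (sc M * sc M)) := by ring
      _ ≤ 4 * L * (2 ^ 219 * (t ^ 20 * d)) := Nat.mul_le_mul_left _ hprod
      _ = (4 * 2 ^ 219) * (t ^ 20 * d * L) := by ring
      _ ≤ 2 ^ 224 * (t ^ 20 * d * L) := by
          apply Nat.mul_le_mul_right
          have e4 : (4 : ℕ) = 2 ^ 2 := by norm_num
          rw [e4, ← pow_add]
          exact Nat.pow_le_pow_right (by norm_num) (by norm_num)
      _ = 2 ^ 224 * t ^ 20 * d * L := by ring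
  have hdM : d ≤ M := by
    refine le_trans ?_ h
    have : 0 < 2 ^ 224 * t ^ 20 := by positivity
    exact Nat.le_mul_of_pos_left _ this
  have hexp : 6 * e * T' ≤ t + 1 := by
    have a1 : 2 ^ (6 * e * T') < 2 ^ (lg n + 2) := by
      have a2 : n + 2 < 2 ^ (lg n + 1) := by
        unfold lg
        exact Nat.lt_pow_succ_log_self (by norm_num) _
      have a3 : (2 ^ (6 * e)) ^ T' = 2 ^ (6 * e * T') := by rw [← pow_mul]
      have a4 : 2 ^ (lg n + 2) = 2 * 2 ^ (lg n + 1) := by rw [← pow_succ']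
      rw [a4]
      omega
    have a5 := (Nat.pow_lt_pow_iff_right (by norm_num)).1 a1
    omega
  have hlog : 6 * e * (T' + 2 + 1) ≤ Nat.log 2 M := by
    have h2 : wd M ≤ M := Nat.div_le_self _ _
    have h3 : 2 ^ (6 * e * (T' + 2 + 1)) ≤ M := by
      have h4 : nB e (T' + 2) ≤ M := by omega
      exact h4
    exact Nat.le_log_of_pow_le (by norm_num) h3
  have hlsc : Nat.log 2 M < sc M := by unfold sc; omega
  refine ⟨e, T' + 2, L, ⟨by omega, by omega, ?_⟩, ?_, ?_, hL2, hL1, ?_, ?_, hM2⟩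
  · have h1 : 32 * e * (T' + 2) = 32 * (e * T') + 64 * e := by ring
    have h2 : 6 * e * T' = 6 * (e * T') := by ring
    rw [h1]
    rw [h2] at hexp
    have h3 : 2 ^ 11 * t ≤ 2 ^ e := by rw [h2e]; exact Nat.mul_le_mul_left _ g1
    omega
  · have h1 : e ≤ 6 * e * (T' + 2 + 1) := by nlinarith
    omega
  · have h1 : T' + 2 ≤ 6 * e * (T' + 2 + 1) := by
      have h2 : 1 ≤ 6 * e := by omega
      calc T' + 2 ≤ 1 * (T' + 2 + 1) := by omega
        _ ≤ 6 * e * (T' + 2 + 1) := Nat.mul_le_mul_right _ h2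
    omega
  · rw [← hm']
    have e1 : 2 ^ (6 * e * (T' + 2 - 1)) = (2 ^ (6 * e)) ^ (T' + 1) := by
      rw [← pow_mul]
      rfl
    rw [e1]
    exact hT1
  · rw [h2e]
    omega

end Pool.Agent.ADV
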