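import Pool.Agent.helper93.ADV.SpecU
import Pool.Agent.helper45.LN.TTR
import Pool.Agent.helper28.LN.TSC
import Pool.Agent.helper43.LN.TUP

/-! Project adv (MP_069684_lc), row WCR: windows of the first `u` bits. -/

set_option autoImplicit false

namespace Pool.Agent.ADV

open Finset Pool.Agent.helper38.Neg Pool.Agent.helper55.NT Pool.Agent.LNB

theorem WCR_wt (u n : ℕ) (z : Fin n → Bool) : wt (LN.io u z) = wtu u z + (n - min u n) := by
  have e : wt (LN.io u z) = ∑ i : Fin n, ((if z i = true then 1 else 0) +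
      (if (if (i : ℕ) < u then false else !(z i)) = true then 1 else 0)) := by
    unfold wt
    rw [Finset.card_filter, Fin.sum_univ_add, Finset.sum_add_distrib]
    unfold LN.io
    simp only [Fin.append_left, Fin.append_right]
  have e2 : wtu u z = ∑ i : Fin n, (if (i : ℕ) < u ∧ z i = true then 1 else 0) := by
    unfold wtu
    rw [Finset.card_filter]
  rw [e, e2, ← LN.TUP_count u n, ← Fin.sum_univ_eq_sum_range (fun i => if i < u then 0 else 1) n,
    ← Finset.sum_add_distrib]
  refine Finset.sum_congr rfl fun i _ => ?_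
  by_cases h : (i : ℕ) < u <;> cases z i <;> simp [h]

theorem WCR (hWNF : WNF_stmt) : WCR_stmt := by
  intro n s u r w C o
  have hcG : HasCost (fun y : Fin (n + n) → Bool => C.val (y ∘ Fin.castAdd n) o) s := by
    obtain ⟨L, hL1, hL2, hL3⟩ := Circuit.toChain C
    exact HasCost.rename (Fin.castAdd n) (f := fun z => C.val z o) ⟨L, hL1, hL2.le, hL3 o⟩
  obtain ⟨L, g1, g2, g3⟩ := hcG
  obtain ⟨C1, hC1⟩ := g1.toCircuit
  obtain ⟨o1, ho1⟩ := hC1 _ g3
  obtain ⟨L', q', h1, h2, h3, h4, h5⟩ := hWNF (n + n) L.length ((n - min u n) + w) r C1 o1 [] 0 SL.nil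
    (fun f hf => absurd hf (Set.notMem_empty f))
  obtain ⟨L2, k1, k2, k3⟩ := LN.TTR n u q' L' h1
  obtain ⟨C2, ⟨S, hS1, hS2⟩, l2⟩ := LN.TSC n u q' L2 k1
  obtain ⟨k, hk⟩ := l2 _ (k3 _ (h5 _ rfl))
  refine ⟨L2.length, ?_, C2, k, ⟨S, by omega, hS2⟩, ?_⟩
  · have e1 : 2 ^ (r + 1) * (2 * (n + n + 2) ^ 3 + 2 * L.length + 10) ≤
        2 ^ (r + 1) * (2 * (2 * n + 2) ^ 3 + 2 * s + 10) := by
      apply Nat.mul_le_mul_left
      have e2 : n + n + 2 = 2 * n + 2 := by omega
      rw [e2]
      omega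
    simp only [List.length_nil, zero_add] at h3
    omega
  · intro z
    rw [hk z]
    have hw := WCR_wt u n z
    have hz : C1.val (LN.io u z) o1 = C.val z o := by
      rw [ho1 (LN.io u z)]
      have e : LN.io u z ∘ Fin.castAdd n = z := by
        funext i
        unfold LN.io
        simp
      rw [e]
    unfold win winu
    simp only [hw, hz]
    have a1 : (n - min u n + w + (2 ^ (r + 1) - 1) ≤ wtu u z + (n - min u n)) ↔ (w + (2 ^ (r + 1) - 1) ≤ wtu u z) := by omega
    have a2 : (n - min u n + w ≤ wtu u z + (n - min u n)) ↔ (w ≤ wtu u z) := by omega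
    simp only [a1, a2]

end Pool.Agent.ADV
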